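import Pool.Agent.W181.RT.All
import Pool.Agent.W696.RT.ALT

set_option autoImplicit false

namespace Pool.Agent.W181.RT

theorem main_holds : S_MAIN :=
  all_main Pool.Agent.W696.RT.t_ALT Pool.Agent.W696.RT.t_HD

end Pool.Agent.W181.RT
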