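import Pool.Agent.W181.RT.Fin2
import Pool.Agent.W509.RT.Gen
import Pool.Agent.W509.RT.Dec
import Pool.Agent.W428.RT.Der
import Pool.Agent.W496.RT.LCR
import Pool.Agent.W650.RT.VanStab
import Pool.Agent.W451.RT.T1
import Pool.Agent.W628.RT.T2
import Pool.Agent.W368.RT.T3H
import Pool.Agent.W202.RT.SP
import Pool.Agent.W271.RT.SPB
import Pool.Agent.W225.RT.Step
import Pool.Agent.W439.RT.Bound
import Pool.Agent.W672.RT.ANN
import Pool.Agent.W481.RT.Chain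
import Pool.Agent.W241.RT.Dual
import Pool.Agent.W103.RT.Num

set_option autoImplicit false

namespace Pool.Agent.W181.RT

theorem all_main (hALT : S_ALT) (hHD : S_HD) : S_MAIN := by
  have hGEN : S_GEN := Pool.Agent.W509.RT.t_GEN
  have hDEC : S_DEC := Pool.Agent.W509.RT.t_DEC
  have hLCR : S_LCR := Pool.Agent.W496.RT.lcr Pool.Agent.W428.RT.t_DER
  have hVAN : S_VAN := Pool.Agent.W650.RT.t_VAN
  have hSTAB : S_STAB := Pool.Agent.W650.RT.t_STAB
  have hT2 : S_T2 := Pool.Agent.W628.RT.t hHD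
  have hKI : S_KI := Pool.Agent.W225.RT.t_KI Pool.Agent.W451.RT.t_T1 hT2
  have hT3 : S_T3 := Pool.Agent.W368.RT.t_T3 hALT
  have hSPB : S_SPB := Pool.Agent.W271.RT.t_SPB Pool.Agent.W202.RT.SP.t_SP hGEN
  have hSTEP : S_STEP := Pool.Agent.W225.RT.t_STEP hT3 hKI hSPB
  have hHOM : S_HOM := Pool.Agent.W368.RT.t_HOM
  have hBOUND : S_BOUND := Pool.Agent.W439.RT.t_BOUND hSTEP hHOM hSTAB
  have hFIN : S_FIN := Pool.Agent.W439.RT.t_FIN hSTEP hVAN
  have hDUAL : S_DUAL := Pool.Agent.W241.RT.t_DUAL hALT hHD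
  have hANN : S_ANN := Pool.Agent.W672.RT.t_ANN hDUAL hDEC hBOUND
  have hCHAIN : S_CHAIN := Pool.Agent.W481.RT.t_CHAIN hLCR hDEC hFIN
  exact t_main hVAN hFIN hANN hCHAIN Pool.Agent.W103.RT.t_NUM1 Pool.Agent.W103.RT.t_NUM2
    Pool.Agent.W103.RT.t_NUM3

end Pool.Agent.W181.RT
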