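import Mathlib

/-! Definitions for the proof of the Reiner–Tudose conjecture. -/

set_option autoImplicit false

namespace Pool.Agent.W181.RT

open Polynomial

/-- ambient polynomial ring `ℚ[e_1..e_ℓ, h_1..h_k]` -/
abbrev AA (ℓ k : ℕ) : Type := MvPolynomial (Fin ℓ ⊕ Fin k) ℚ

noncomputable def Sg (ℓ k : ℕ) : Polynomial (AA ℓ k) :=
  1 + ∑ i : Fin ℓ, Polynomial.C ((-1 : AA ℓ k) ^ (i.val + 1) * MvPolynomial.X (Sum.inl i))
    * (Polynomial.X : Polynomial (AA ℓ k)) ^ (i.val + 1)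

noncomputable def Tg (ℓ k : ℕ) : Polynomial (AA ℓ k) :=
  1 + ∑ j : Fin k, Polynomial.C (MvPolynomial.X (Sum.inr j) : AA ℓ k)
    * (Polynomial.X : Polynomial (AA ℓ k)) ^ (j.val + 1)

/-- the defining ideal -/
noncomputable def II (ℓ k : ℕ) : Ideal (AA ℓ k) :=
  Ideal.span {p : AA ℓ k | ∃ n : ℕ, 1 ≤ n ∧ p = (Sg ℓ k * Tg ℓ k).coeff n}

/-- the cohomology ring of the Grassmannian -/
abbrev RR (ℓ k : ℕ) : Type := AA ℓ k ⧸ II ℓ k

noncomputable def SS (ℓ k : ℕ) : Polynomial (RR ℓ k) := (Sg ℓ k).map (Ideal.Quotient.mk (II ℓ k))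
noncomputable def TT (ℓ k : ℕ) : Polynomial (RR ℓ k) := (Tg ℓ k).map (Ideal.Quotient.mk (II ℓ k))

/-- `T' / T = T' S`, the generating function of the power sums `q_a = p_{a+1}`. -/
noncomputable def PP (ℓ k : ℕ) : Polynomial (RR ℓ k) := derivative (TT ℓ k) * SS ℓ k

/-- `q_a = p_{a+1}` -/
noncomputable def qq (ℓ k : ℕ) (a : ℕ) : RR ℓ k := (PP ℓ k).coeff a

/-- weights -/
def ww (ℓ k : ℕ) : Fin ℓ ⊕ Fin k → ℕ :=
  Sum.elim (fun i : Fin ℓ => i.val + 1) (fun j : Fin k => j.val + 1)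

theorem coeff_Sg_zero (ℓ k : ℕ) : (Sg ℓ k).coeff 0 = 1 := by
  simp [Sg, Polynomial.coeff_X_pow]

theorem coeff_Tg_zero (ℓ k : ℕ) : (Tg ℓ k).coeff 0 = 1 := by
  simp [Tg, Polynomial.coeff_X_pow]

theorem SS_coeff_zero (ℓ k : ℕ) : (SS ℓ k).coeff 0 = 1 := by
  simp [SS, coeff_Sg_zero]

theorem TT_coeff_zero (ℓ k : ℕ) : (TT ℓ k).coeff 0 = 1 := by
  simp [TT, coeff_Tg_zero]

theorem ST_one (ℓ k : ℕ) : SS ℓ k * TT ℓ k = 1 := by
  ext n
  rw [SS, TT, ← Polynomial.map_mul, Polynomial.coeff_map]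
  rcases Nat.eq_zero_or_pos n with h | h
  · subst h
    simp [Polynomial.mul_coeff_zero, coeff_Sg_zero, coeff_Tg_zero]
  · rw [Polynomial.coeff_one, if_neg (by omega)]
    exact Ideal.Quotient.eq_zero_iff_mem.mpr (Ideal.subset_span ⟨n, h, rfl⟩)

theorem Sg_coeff_big (ℓ k : ℕ) (n : ℕ) (h : ℓ < n) : (Sg ℓ k).coeff n = 0 := by
  rw [Sg, Polynomial.coeff_add, Polynomial.finsetSum_coeff, Polynomial.coeff_one,
    if_neg (by omega), zero_add]
  apply Finset.sum_eq_zero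
  intro i _
  rw [Polynomial.coeff_C_mul, Polynomial.coeff_X_pow, if_neg (by have := i.2; omega), mul_zero]

theorem Tg_coeff_big (ℓ k : ℕ) (n : ℕ) (h : k < n) : (Tg ℓ k).coeff n = 0 := by
  rw [Tg, Polynomial.coeff_add, Polynomial.finsetSum_coeff, Polynomial.coeff_one,
    if_neg (by omega), zero_add]
  apply Finset.sum_eq_zero
  intro i _
  rw [Polynomial.coeff_C_mul, Polynomial.coeff_X_pow, if_neg (by have := i.2; omega), mul_zero]

theorem SS_coeff_big (ℓ k : ℕ) (n : ℕ) (h : ℓ < n) : (SS ℓ k).coeff n = 0 := by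
  rw [SS, Polynomial.coeff_map, Sg_coeff_big ℓ k n h, map_zero]

theorem TT_coeff_big (ℓ k : ℕ) (n : ℕ) (h : k < n) : (TT ℓ k).coeff n = 0 := by
  rw [TT, Polynomial.coeff_map, Tg_coeff_big ℓ k n h, map_zero]

theorem TP (ℓ k : ℕ) : TT ℓ k * PP ℓ k = derivative (TT ℓ k) := by
  have h := ST_one ℓ k
  rw [PP]
  linear_combination (derivative (TT ℓ k)) * h

theorem SP (ℓ k : ℕ) : SS ℓ k * PP ℓ k = - derivative (SS ℓ k) := by
  have h : derivative (SS ℓ k * TT ℓ k) = 0 := by rw [ST_one]; simp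
  rw [Polynomial.derivative_mul] at h
  have h2 : SS ℓ k * derivative (TT ℓ k) = - (derivative (SS ℓ k) * TT ℓ k) := by
    linear_combination h
  calc SS ℓ k * PP ℓ k = (SS ℓ k * derivative (TT ℓ k)) * SS ℓ k := by rw [PP]; ring
    _ = - (derivative (SS ℓ k)) * (SS ℓ k * TT ℓ k) := by rw [h2]; ring
    _ = _ := by rw [ST_one, mul_one]

/-- the endomorphism multiplying an element of degree `d` by `2 ^ d`, upstairs -/
noncomputable def sigA (ℓ k : ℕ) : AA ℓ k →ₐ[ℚ] AA ℓ k :=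
  MvPolynomial.aeval (fun x : Fin ℓ ⊕ Fin k => (MvPolynomial.C ((2 : ℚ) ^ (ww ℓ k x)) * MvPolynomial.X x : AA ℓ k))

theorem sigA_Sg (ℓ k n : ℕ) : sigA ℓ k ((Sg ℓ k).coeff n) = (2 : ℚ) ^ n • (Sg ℓ k).coeff n := by
  rcases Nat.eq_zero_or_pos n with h | h
  · subst h; simp [coeff_Sg_zero]
  · rw [Sg, Polynomial.coeff_add, Polynomial.finsetSum_coeff, Polynomial.coeff_one,
      if_neg (by omega), zero_add, map_sum, Finset.smul_sum]
    apply Finset.sum_congr rfl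
    intro i _
    rw [Polynomial.coeff_C_mul, Polynomial.coeff_X_pow]
    split_ifs with hn
    · simp only [mul_one, map_mul, map_pow, map_neg, map_one, sigA, MvPolynomial.aeval_X, ww,
        Sum.elim_inl, hn]
      rw [MvPolynomial.smul_eq_C_mul]
      simp only [map_pow]
      ring
    · simp

theorem sigA_Tg (ℓ k n : ℕ) : sigA ℓ k ((Tg ℓ k).coeff n) = (2 : ℚ) ^ n • (Tg ℓ k).coeff n := by
  rcases Nat.eq_zero_or_pos n with h | h
  · subst h; simp [coeff_Tg_zero]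
  · rw [Tg, Polynomial.coeff_add, Polynomial.finsetSum_coeff, Polynomial.coeff_one,
      if_neg (by omega), zero_add, map_sum, Finset.smul_sum]
    apply Finset.sum_congr rfl
    intro i _
    rw [Polynomial.coeff_C_mul, Polynomial.coeff_X_pow]
    split_ifs with hn
    · simp only [mul_one, sigA, MvPolynomial.aeval_X, ww, Sum.elim_inr, hn]
      rw [MvPolynomial.smul_eq_C_mul]
    · simp

theorem sigA_STg (ℓ k n : ℕ) :
    sigA ℓ k ((Sg ℓ k * Tg ℓ k).coeff n) = (2 : ℚ) ^ n • (Sg ℓ k * Tg ℓ k).coeff n := by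
  rw [Polynomial.coeff_mul, map_sum, Finset.smul_sum]
  apply Finset.sum_congr rfl
  intro x hx
  replace hx := Finset.HasAntidiagonal.mem_antidiagonal.mp hx
  rw [map_mul, sigA_Sg, sigA_Tg, smul_mul_smul_comm, ← pow_add, hx]

theorem sigA_II (ℓ k : ℕ) : II ℓ k ≤ (II ℓ k).comap (sigA ℓ k).toRingHom := by
  rw [II, Ideal.span_le]
  rintro p ⟨n, hn, rfl⟩
  show sigA ℓ k ((Sg ℓ k * Tg ℓ k).coeff n) ∈ II ℓ k
  rw [sigA_STg]
  exact Submodule.smul_of_tower_mem _ _ (Ideal.subset_span ⟨n, hn, rfl⟩)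

/-- the grading endomorphism of `R`: multiplication by `2 ^ d` in degree `d`. -/
noncomputable def sig (ℓ k : ℕ) : RR ℓ k →ₐ[ℚ] RR ℓ k :=
  Ideal.quotientMapₐ (II ℓ k) (sigA ℓ k) (sigA_II ℓ k)

theorem sig_mk (ℓ k : ℕ) (x : AA ℓ k) :
    sig ℓ k (Ideal.Quotient.mk (II ℓ k) x) = Ideal.Quotient.mk (II ℓ k) (sigA ℓ k x) := rfl

/-- the degree `D` part of `R` -/
def RD (ℓ k D : ℕ) : Submodule ℚ (RR ℓ k) where
  carrier := {x | sig ℓ k x = (2 : ℚ) ^ D • x}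
  add_mem' := by
    intro x y hx hy
    simp only [Set.mem_ofPred_eq] at *
    rw [map_add, hx, hy, smul_add]
  zero_mem' := by simp
  smul_mem' := by
    intro c x hx
    simp only [Set.mem_ofPred_eq] at *
    rw [map_smul, hx, smul_comm]

theorem mem_RD (ℓ k D : ℕ) (x : RR ℓ k) : x ∈ RD ℓ k D ↔ sig ℓ k x = (2 : ℚ) ^ D • x := Iff.rfl

theorem RD_mul (ℓ k D E : ℕ) (x y : RR ℓ k) (hx : x ∈ RD ℓ k D) (hy : y ∈ RD ℓ k E) :
    x * y ∈ RD ℓ k (D + E) := by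
  rw [mem_RD] at *
  rw [map_mul, hx, hy, smul_mul_smul_comm, ← pow_add]

theorem SS_coeff_mem (ℓ k n : ℕ) : (SS ℓ k).coeff n ∈ RD ℓ k n := by
  rw [mem_RD, SS, Polynomial.coeff_map, sig_mk, sigA_Sg]
  rfl

theorem TT_coeff_mem (ℓ k n : ℕ) : (TT ℓ k).coeff n ∈ RD ℓ k n := by
  rw [mem_RD, TT, Polynomial.coeff_map, sig_mk, sigA_Tg]
  rfl

theorem qq_mem (ℓ k a : ℕ) : qq ℓ k a ∈ RD ℓ k (a + 1) := by
  rw [qq, PP, Polynomial.coeff_mul]
  apply Submodule.sum_mem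
  intro x hx
  replace hx := Finset.HasAntidiagonal.mem_antidiagonal.mp hx
  rw [Polynomial.coeff_derivative]
  have h1 := TT_coeff_mem ℓ k (x.1 + 1)
  have h2 := SS_coeff_mem ℓ k x.2
  have h3 := RD_mul ℓ k _ _ _ _ h1 h2
  have h4 : x.1 + 1 + x.2 = a + 1 := by omega
  rw [h4] at h3
  have h5 : (TT ℓ k).coeff (x.1 + 1) * ((x.1 : RR ℓ k) + 1) * (SS ℓ k).coeff x.2
      = (x.1 + 1) • ((TT ℓ k).coeff (x.1 + 1) * (SS ℓ k).coeff x.2) := by
    rw [nsmul_eq_mul]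
    push_cast
    ring
  rw [h5]
  exact (RD ℓ k (a + 1)).toAddSubmonoid.nsmul_mem h3 _

/-! ### Hankel minors -/

/-- Hankel-type minor: rows `α_l`, columns `0..i-1`. -/
noncomputable def hk {R : Type} [CommRing R] (q : ℕ → R) (i : ℕ) (α : Fin i → ℕ) : R :=
  Matrix.det (Matrix.of fun (l c : Fin i) => q (α l + (c : ℕ)))

/-- ideal generated by the maximal minors of the matrix `(q_{a+c})_{a ≥ 0, c < i}` -/
def PI {R : Type} [CommRing R] (q : ℕ → R) (i : ℕ) : Ideal R := Ideal.span (Set.range (hk q i))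

/-! ### The functional `L^{⊗ i}` and the map `Θ_i` -/

/-- `L^{⊗ i} : R[y_0..y_{i-1}] → R`, `y^α ↦ ∏ q_{α_j}`. -/
noncomputable def Lam {R : Type} [CommRing R] (q : ℕ → R) (i : ℕ) :
    MvPolynomial (Fin i) R →ₗ[R] R :=
  (MvPolynomial.basisMonomials (Fin i) R).constr R (fun α => ∏ j, q (α j))

/-- Vandermonde determinant `det (y_j ^ c)`. -/
noncomputable def Vd (R : Type) [CommRing R] (i : ℕ) : MvPolynomial (Fin i) R :=
  Matrix.det (Matrix.of fun (j c : Fin i) => (MvPolynomial.X j : MvPolynomial (Fin i) R) ^ (c : ℕ))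

/-- `y^δ = ∏ y_j^j`. -/
noncomputable def yd (R : Type) [CommRing R] (i : ℕ) : MvPolynomial (Fin i) R :=
  ∏ j : Fin i, (MvPolynomial.X j : MvPolynomial (Fin i) R) ^ (j : ℕ)

/-- `R[ε_1..ε_i] → R[y]`; the variable `c : Fin i` goes to `e_{c+1}(y)`. -/
noncomputable def ey (R : Type) [CommRing R] (i : ℕ) :
    MvPolynomial (Fin i) R →ₐ[R] MvPolynomial (Fin i) R :=
  MvPolynomial.aeval (fun c : Fin i => MvPolynomial.esymm (Fin i) R ((c : ℕ) + 1))

/-- `Θ_i : R[ε_1..ε_i] → R`. -/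
noncomputable def Th {R : Type} [CommRing R] (q : ℕ → R) (i : ℕ) (g : MvPolynomial (Fin i) R) : R :=
  Lam q i (ey R i g * Vd R i * yd R i)

/-- `D = ∏ (1 - y_j z)` as polynomial with coefficients in `R[ε]`. -/
noncomputable def Dp (R : Type) [CommRing R] (i : ℕ) : PowerSeries (MvPolynomial (Fin i) R) :=
  1 + ∑ c : Fin i, PowerSeries.C ((-1 : MvPolynomial (Fin i) R) ^ (c.val + 1) * MvPolynomial.X c)
    * (PowerSeries.X : PowerSeries (MvPolynomial (Fin i) R)) ^ (c.val + 1)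

/-- `W / D` for a polynomial `W` over `R`. -/
noncomputable def XW {R : Type} [CommRing R] (i : ℕ) (W : Polynomial R) :
    PowerSeries (MvPolynomial (Fin i) R) :=
  ((W.map MvPolynomial.C : Polynomial (MvPolynomial (Fin i) R)) : PowerSeries (MvPolynomial (Fin i) R))
    * PowerSeries.invOfUnit (Dp R i) 1

/-- the `ρ_a`: coefficient of `z^{i+a}` in `D * Σ q_a z^a`. -/
noncomputable def rho {R : Type} [CommRing R] (q : ℕ → R) (i a : ℕ) : MvPolynomial (Fin i) R :=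
  PowerSeries.coeff (i + a) (Dp R i * PowerSeries.mk (fun n => MvPolynomial.C (q n)))

/-- The ideal `K'` of `R[ε]`. -/
noncomputable def KI {R : Type} [CommRing R] (q : ℕ → R) (i : ℕ) (S T : Polynomial R) (ℓ k : ℕ) :
    Ideal (MvPolynomial (Fin i) R) :=
  Ideal.span ({g | ∃ a, g = rho q i a} ∪ {g | ∃ l, k < l + i ∧ g = PowerSeries.coeff l (XW i T)}
    ∪ {g | ∃ l, ℓ < l + i ∧ g = PowerSeries.coeff l (XW i S)})

end Pool.Agent.W181.RT
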