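import Pool.Agent.W181.RT.Props

set_option autoImplicit false

namespace Pool.Agent.W181.RT

open Polynomial

noncomputable def aug0 (ℓ k : ℕ) : AA ℓ k →ₐ[ℚ] ℚ := MvPolynomial.aeval (fun _ => (0 : ℚ))

theorem map_Sg (ℓ k : ℕ) : (Sg ℓ k).map (aug0 ℓ k).toRingHom = 1 := by
  simp [Sg, Polynomial.map_sum, aug0, Polynomial.map_add]

theorem map_Tg (ℓ k : ℕ) : (Tg ℓ k).map (aug0 ℓ k).toRingHom = 1 := by
  simp [Tg, Polynomial.map_sum, aug0, Polynomial.map_add]

theorem nontriv (ℓ k : ℕ) : Nontrivial (RR ℓ k) := by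
  apply Ideal.Quotient.nontrivial_iff.mpr
  intro h
  have h1 : (1 : AA ℓ k) ∈ II ℓ k := by rw [h]; trivial
  have h2 : II ℓ k ≤ RingHom.ker (aug0 ℓ k).toRingHom := by
    rw [II, Ideal.span_le]
    rintro p ⟨n, hn, rfl⟩
    show (aug0 ℓ k).toRingHom ((Sg ℓ k * Tg ℓ k).coeff n) = 0
    rw [← Polynomial.coeff_map, Polynomial.map_mul, map_Sg, map_Tg, mul_one,
      Polynomial.coeff_one, if_neg (by omega)]
  have h3 := h2 h1
  rw [RingHom.mem_ker, map_one] at h3
  exact one_ne_zero h3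

theorem Rm_mono (ℓ k m : ℕ) : Rm ℓ k m ≤ Rm ℓ k (m + 1) := by
  intro x hx
  have : Algebra.adjoin ℚ {x : RR ℓ k | ∃ a : ℕ, a < m ∧ x = qq ℓ k a} ≤
      Algebra.adjoin ℚ {x : RR ℓ k | ∃ a : ℕ, a < m + 1 ∧ x = qq ℓ k a} := by
    apply Algebra.adjoin_mono
    rintro y ⟨a, ha, rfl⟩
    exact ⟨a, by omega, rfl⟩
  exact this hx

theorem Rm_zero (ℓ k : ℕ) (x : RR ℓ k) : x ∈ Rm ℓ k 0 ↔ ∃ c : ℚ, x = algebraMap ℚ _ c := by
  have h : {x : RR ℓ k | ∃ a : ℕ, a < 0 ∧ x = qq ℓ k a} = ∅ := by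
    ext y
    simp
  unfold Rm
  rw [h, Algebra.adjoin_empty]
  constructor
  · intro hx
    obtain ⟨c, hc⟩ := Algebra.mem_bot.mp hx
    exact ⟨c, hc.symm⟩
  · rintro ⟨c, rfl⟩
    exact Algebra.mem_bot.mpr ⟨c, rfl⟩

theorem base (ℓ k D : ℕ) :
    Module.finrank ℚ ↥(Rm ℓ k 0 ⊓ RD ℓ k D) = (1 : Polynomial ℕ).coeff D := by
  have := nontriv ℓ k
  rw [Polynomial.coeff_one]
  split_ifs with hD
  · subst hD
    have h : Rm ℓ k 0 ⊓ RD ℓ k 0 = Submodule.span ℚ {(1 : RR ℓ k)} := by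
      ext x
      rw [Submodule.mem_inf, Rm_zero, Submodule.mem_span_singleton]
      constructor
      · rintro ⟨⟨c, rfl⟩, _⟩
        exact ⟨c, by rw [Algebra.algebraMap_eq_smul_one]⟩
      · rintro ⟨c, rfl⟩
        refine ⟨⟨c, by rw [Algebra.algebraMap_eq_smul_one]⟩, ?_⟩
        rw [mem_RD, map_smul, map_one, pow_zero, one_smul]
    rw [h, finrank_span_singleton (one_ne_zero)]
  · have h : Rm ℓ k 0 ⊓ RD ℓ k D = ⊥ := by
      rw [eq_bot_iff]
      intro x hx
      rw [Submodule.mem_inf, Rm_zero, mem_RD] at hx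
      obtain ⟨⟨c, rfl⟩, h2⟩ := hx
      rw [AlgHom.commutes] at h2
      replace h2 := h2.trans (Algebra.smul_def ((2 : ℚ) ^ D) (algebraMap ℚ (RR ℓ k) c))
      rw [← map_mul] at h2
      have h3 := (algebraMap ℚ (RR ℓ k)).injective h2
      have h4 : (2 : ℚ) ^ D ≠ 1 := by
        have : (1 : ℚ) < 2 ^ D := one_lt_pow₀ (by norm_num) hD
        exact ne_of_gt this
      have h5 : c = 0 := by
        have : (2 ^ D - 1 : ℚ) * c = 0 := by linear_combination -h3
        rcases mul_eq_zero.mp this with h | h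
        · exact absurd (by linear_combination h) h4
        · exact h
      rw [h5, map_zero]
      exact Submodule.zero_mem _
    rw [h, finrank_bot]

theorem ep_zero (qb : ℕ → ℕ → Polynomial ℕ) (ℓ k : ℕ) : ep qb ℓ k 0 = 1 := by
  simp [ep]

/-- final numerical comparison -/
theorem squeeze (d : ℕ) (ρ ε J A : ℕ → ℕ → ℕ)
    (h0 : ∀ D, ρ 0 D = ε 0 D)
    (hmono : ∀ m D, ρ m D ≤ ρ (m + 1) D)
    (hA : ∀ m D, m < d → A (m + 1) D ≤ J (m + 1) D)
    (hchain : ∀ m D, m < d → ρ m (D + (m + 1)) + ρ (m + 1) D ≤ ρ (m + 1) (D + (m + 1)) + A (m + 1) D)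
    (hε : ∀ m D, m < d → ε (m + 1) (D + (m + 1)) + J (m + 1) D = ε m (D + (m + 1)) + ε (m + 1) D)
    (hεs : ∀ m D, m < d → D < m + 1 → ε (m + 1) D = ε m D)
    (htop : ∀ D, ρ d D ≤ ε d D) :
    ∀ m, m ≤ d → ∀ D, ρ m D = ε m D := by
  have low : ∀ m, m ≤ d → ∀ D, ε m D ≤ ρ m D := by
    intro m
    induction m with
    | zero => intro _ D; exact (h0 D).ge
    | succ m ih =>
      intro hm D
      induction D using Nat.strong_induction_on with
      | _ D ihD =>
        rcases Nat.lt_or_ge D (m + 1) with h | h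
        · rw [hεs m D (by omega) h]
          exact (ih (by omega) D).trans (hmono m D)
        · obtain ⟨D', rfl⟩ : ∃ D', D = D' + (m + 1) := ⟨D - (m + 1), by omega⟩
          have h1 := hchain m D' (by omega)
          have h2 := hε m D' (by omega)
          have h3 := hA m D' (by omega)
          have h4 := ih (by omega) (D' + (m + 1))
          have h5 := ihD D' (by omega)
          omega
  have key : ∀ j, j ≤ d → ∀ D, ρ (d - j) D = ε (d - j) D := by
    intro j
    induction j with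
    | zero => intro _ D; exact le_antisymm (htop D) (low d le_rfl D)
    | succ j ih =>
      intro hj D
      obtain ⟨m, hm⟩ : ∃ m, m = d - (j + 1) := ⟨_, rfl⟩
      have hm1 : d - j = m + 1 := by omega
      have ih' := ih (by omega)
      rw [hm1] at ih'
      rw [← hm]
      apply le_antisymm _ (low m (by omega) D)
      rcases Nat.lt_or_ge D (m + 1) with h | h
      · calc ρ m D ≤ ρ (m + 1) D := hmono m D
          _ = ε (m + 1) D := ih' D
          _ = ε m D := hεs m D (by omega) h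
      · obtain ⟨D', rfl⟩ : ∃ D', D = D' + (m + 1) := ⟨D - (m + 1), by omega⟩
        have h1 := hchain m D' (by omega)
        have h2 := hε m D' (by omega)
        have h3 := hA m D' (by omega)
        have h4 := ih' (D' + (m + 1))
        have h5 := ih' D'
        omega
  intro m hm D
  have := key (d - m) (by omega) D
  rwa [show d - (d - m) = m by omega] at this

theorem t_main (hVAN : S_VAN) (hFIN : S_FIN) (hANN : S_ANN)
    (hCHAIN : S_CHAIN) (hNUM1 : S_NUM1) (hNUM2 : S_NUM2) (hNUM3 : S_NUM3) : S_MAIN := by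
  intro qb hqb ℓ k m hm D
  have := hFIN ℓ k
  have hAJ : ∀ m D, m ≤ min k ℓ + 1 →
      Module.finrank ℚ ↥(AnnP ℓ k m ⊓ RD ℓ k D) ≤ (jp qb ℓ k m).coeff D := by
    intro m D hm
    have h := hANN ℓ k m hm D
    split_ifs at h with hD
    · rwa [hNUM3 qb hqb ℓ k m hm D hD] at h
    · omega
  refine squeeze (min k ℓ) (fun m D => Module.finrank ℚ ↥(Rm ℓ k m ⊓ RD ℓ k D))
    (fun m D => (ep qb ℓ k m).coeff D) (fun m D => (jp qb ℓ k m).coeff D)
    (fun m D => Module.finrank ℚ ↥(AnnP ℓ k m ⊓ RD ℓ k D)) ?_ ?_ ?_ ?_ ?_ ?_ ?_ m hm D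
  · intro D
    show Module.finrank ℚ ↥(Rm ℓ k 0 ⊓ RD ℓ k D) = (ep qb ℓ k 0).coeff D
    rw [ep_zero]
    exact base ℓ k D
  · intro m D
    exact Submodule.finrank_mono (inf_le_inf_right _ (Rm_mono ℓ k m))
  · intro m D hm
    exact hAJ (m + 1) D (by omega)
  · intro m D hm
    exact hCHAIN ℓ k m D
  · intro m D hm
    have h := congrArg (fun p : Polynomial ℕ => p.coeff (D + (m + 1)))
      (hNUM1 qb hqb ℓ k m (by omega))
    simp only [Polynomial.coeff_add] at h
    rw [Polynomial.coeff_X_pow_mul', Polynomial.coeff_X_pow_mul', if_pos (by omega),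
      if_pos (by omega)] at h
    simpa using h
  · intro m D hm hD
    have h := congrArg (fun p : Polynomial ℕ => p.coeff D) (hNUM1 qb hqb ℓ k m (by omega))
    simp only [Polynomial.coeff_add] at h
    rw [Polynomial.coeff_X_pow_mul', Polynomial.coeff_X_pow_mul', if_neg (by omega),
      if_neg (by omega)] at h
    simpa using h
  · intro D
    show Module.finrank ℚ ↥(Rm ℓ k (min k ℓ) ⊓ RD ℓ k D) ≤ (ep qb ℓ k (min k ℓ)).coeff D
    rw [hNUM2 qb hqb ℓ k]
    have h := hAJ (min k ℓ + 1) D le_rfl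
    refine le_trans (Submodule.finrank_mono ?_) h
    rintro x ⟨_, hx⟩
    refine ⟨?_, hx⟩
    intro z hz
    rw [hVAN ℓ k] at hz
    rw [(Submodule.mem_bot _).mp hz, mul_zero]

end Pool.Agent.W181.RT
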