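import Pool.Agent.W181.RT.Fin

set_option autoImplicit false

namespace Pool.Agent.W181.RT

open Polynomial

theorem adj (hTR1 : S_TR1) (hTR2 : S_TR2) (ℓ k m : ℕ) :
    Algebra.adjoin ℚ {x : RR ℓ k | ∃ e : ℕ, e ≤ m ∧
      ∃ p ∈ MvPolynomial.weightedHomogeneousSubmodule ℚ (ww ℓ k) e,
        x = Ideal.Quotient.mkₐ ℚ (II ℓ k) p} =
    Algebra.adjoin ℚ {x : RR ℓ k | ∃ a : ℕ, a < m ∧ x = qq ℓ k a} := by
  apply le_antisymm
  · apply Algebra.adjoin_le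
    rintro x ⟨e, he, p, hp, rfl⟩
    apply hTR2 ℓ k m e he
    rw [← hTR1]
    exact ⟨p, hp, rfl⟩
  · apply Algebra.adjoin_le
    rintro x ⟨a, ha, rfl⟩
    have h := qq_mem ℓ k a
    rw [← hTR1] at h
    obtain ⟨p, hp, hpx⟩ := h
    exact Algebra.subset_adjoin ⟨a + 1, by omega, p, hp, hpx.symm⟩

theorem t_final (hM : S_MAIN) (hTR1 : S_TR1) (hTR2 : S_TR2) :
  ∀ qb : ℕ → ℕ → Polynomial ℕ,
    (∀ n r : ℕ, qb n r = ∑ S ∈ (Finset.univ : Finset (Fin n)).powersetCard r,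
        (Polynomial.X : Polynomial ℕ) ^ ((∑ s ∈ S, (s : ℕ)) - r * (r - 1) / 2)) →
  ∀ ℓ k : ℕ, ∀ w : Fin ℓ ⊕ Fin k → ℕ,
    w = Sum.elim (fun i : Fin ℓ => i.val + 1) (fun j : Fin k => j.val + 1) →
  ∀ I : Ideal (MvPolynomial (Fin ℓ ⊕ Fin k) ℚ),
    I = Ideal.span {p : MvPolynomial (Fin ℓ ⊕ Fin k) ℚ | ∃ n : ℕ, 1 ≤ n ∧
      p = ((1 + ∑ i : Fin ℓ, Polynomial.C
              ((-1 : MvPolynomial (Fin ℓ ⊕ Fin k) ℚ) ^ (i.val + 1) * MvPolynomial.X (Sum.inl i))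
              * (Polynomial.X : Polynomial (MvPolynomial (Fin ℓ ⊕ Fin k) ℚ)) ^ (i.val + 1)) *
           (1 + ∑ j : Fin k, Polynomial.C
              (MvPolynomial.X (Sum.inr j) : MvPolynomial (Fin ℓ ⊕ Fin k) ℚ)
              * (Polynomial.X : Polynomial (MvPolynomial (Fin ℓ ⊕ Fin k) ℚ)) ^ (j.val + 1))).coeff n} →
  ∀ m : ℕ, m ≤ min k ℓ → ∀ d : ℕ,
    Module.finrank ℚ ↥(Subalgebra.toSubmodule
        (Algebra.adjoin ℚ {x : MvPolynomial (Fin ℓ ⊕ Fin k) ℚ ⧸ I | ∃ e : ℕ, e ≤ m ∧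
          ∃ p ∈ MvPolynomial.weightedHomogeneousSubmodule ℚ w e, x = Ideal.Quotient.mkₐ ℚ I p})
      ⊓ Submodule.map (Ideal.Quotient.mkₐ ℚ I).toLinearMap
          (MvPolynomial.weightedHomogeneousSubmodule ℚ w d))
    = (1 + ∑ i ∈ Finset.Icc 1 m, (Polynomial.X : Polynomial ℕ) ^ i * qb k i *
          ∑ j ∈ Finset.range (ℓ - i + 1),
            (Polynomial.X : Polynomial ℕ) ^ (j * (k - i + 1)) * qb (i + j - 1) j).coeff d := by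
  intro qb hqb ℓ k w hw I hI m hm d
  have hw' : w = ww ℓ k := hw
  have hI' : I = II ℓ k := hI
  subst hw' hI'
  have h1 := adj hTR1 hTR2 ℓ k m
  have h2 := hTR1 ℓ k d
  have h3 := hM qb hqb ℓ k m hm d
  rw [h1, h2]
  exact h3

end Pool.Agent.W181.RT
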