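import Pool.Agent.W181.RT.Defs

/-! Statements of the steps of the proof of the Reiner–Tudose conjecture. -/

set_option autoImplicit false

namespace Pool.Agent.W181.RT

open Polynomial

/-! ### Algebraic part about `R = RR ℓ k` -/

/-- `R` is generated by the power sums. (`T' = T * P`, `S' = -S * P`, char 0.) -/
def S_GEN : Prop := ∀ ℓ k : ℕ, Algebra.adjoin ℚ (Set.range (qq ℓ k)) = ⊤

/-- `R` is generated by the first `min k ℓ` power sums. -/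
def S_GEND : Prop := ∀ ℓ k : ℕ,
  Algebra.adjoin ℚ {x : RR ℓ k | ∃ a : ℕ, a < min k ℓ ∧ x = qq ℓ k a} = ⊤

/-- every element is a sum of homogeneous elements -/
def S_DEC : Prop := ∀ ℓ k : ℕ, ∀ x : RR ℓ k, x ∈ ⨆ D : ℕ, RD ℓ k D

/-- the derivations `L_a`. (`L_a T = T * P_a`, `L_a S = - S * P_a`, `P_a = ∑ q_{a+j-1} z^j`.) -/
def S_DER : Prop := ∀ ℓ k a : ℕ, ∃ δ : Derivation ℚ (RR ℓ k) (RR ℓ k),
  ∀ c : ℕ, δ (qq ℓ k c) = ((c : RR ℓ k) + 1) * qq ℓ k (a + c)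

/-- Cramer's rule consequence of `S_DER`. -/
def S_LCR : Prop := ∀ (ℓ k m : ℕ) (H : MvPolynomial (Fin m) ℚ),
  MvPolynomial.aeval (fun i : Fin m => qq ℓ k (i : ℕ)) H = 0 →
  ∀ (i : Fin m) (z : RR ℓ k), z ∈ PI (qq ℓ k) m →
    MvPolynomial.aeval (fun i : Fin m => qq ℓ k (i : ℕ)) (MvPolynomial.pderiv i H) * z = 0

/-- Hankel minors of size `> min k ℓ` vanish. -/
def S_VAN : Prop := ∀ ℓ k : ℕ, PI (qq ℓ k) (min k ℓ + 1) = ⊥

/-- Poincaré duality. -/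
def S_DUAL : Prop := ∀ ℓ k : ℕ, ∃ f : RR ℓ k →ₗ[ℚ] ℚ,
  (∀ x : RR ℓ k, f (sig ℓ k x) = (2 : ℚ) ^ (k * ℓ) * f x) ∧
  (∀ x : RR ℓ k, (∀ y : RR ℓ k, f (x * y) = 0) → x = 0)

/-! ### alternants -/

/-- the generic monic polynomial `∏ (Y - y_j)` over `R[ε]`. -/
noncomputable def Dhat (R : Type) [CommRing R] (i : ℕ) : Polynomial (MvPolynomial (Fin i) R) :=
  Polynomial.X ^ i + ∑ c : Fin i, Polynomial.C ((-1 : MvPolynomial (Fin i) R) ^ (c.val + 1) * MvPolynomial.X c)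
    * (Polynomial.X : Polynomial (MvPolynomial (Fin i) R)) ^ (i - (c.val + 1))

/-- determinant of the remainders of `Y ^ α_l` modulo `Dhat`. -/
noncomputable def gal (R : Type) [CommRing R] (i : ℕ) (α : Fin i → ℕ) : MvPolynomial (Fin i) R :=
  Matrix.det (Matrix.of fun (l c : Fin i) =>
    (((Polynomial.X : Polynomial (MvPolynomial (Fin i) R)) ^ (α l)) %ₘ Dhat R i).coeff (c : ℕ))

/-- every alternant is a symmetric polynomial times the Vandermonde. -/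
def S_ALT : Prop := ∀ (R : Type) [CommRing R] (i : ℕ) (α : Fin i → ℕ),
  Matrix.det (Matrix.of fun (l j : Fin i) => (MvPolynomial.X j : MvPolynomial (Fin i) R) ^ (α l))
    = ey R i (gal R i α) * Vd R i

/-- `h_m · Δ` as combination of pure powers. -/
def S_HD : Prop := ∀ (R : Type) [CommRing R] (i : ℕ), 1 ≤ i →
  ∃ cof : Fin i → MvPolynomial (Fin i) R, ∀ m : ℕ,
    ∑ j : Fin i, (MvPolynomial.X j : MvPolynomial (Fin i) R) ^ m * cof j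
      = if m + 1 < i then 0
        else ey R i (PowerSeries.coeff (m + 1 - i) (PowerSeries.invOfUnit (Dp R i) 1)) * Vd R i

/-! ### the maps `Θ_i` -/

def S_T1 : Prop := ∀ (R : Type) [CommRing R] (q : ℕ → R) (i a : ℕ) (g : MvPolynomial (Fin i) R),
  Th q i (g * rho q i a) ∈ PI q (i + 1)

def S_T2 : Prop := ∀ (R : Type) [CommRing R] (q : ℕ → R) (i k : ℕ) (W : Polynomial R),
  (∀ n : ℕ, k < n → W.coeff n = 0) →
  (∀ s : ℕ, ∑ b ∈ Finset.range (k + 1), W.coeff b * q (k - b + s) = 0) →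
  ∀ (l : ℕ) (g : MvPolynomial (Fin i) R), k < l + i →
    Th q i (g * PowerSeries.coeff l (XW i W)) = 0

def S_T3 : Prop := ∀ (R : Type) [CommRing R] (q : ℕ → R) (i : ℕ) (α : Fin i → ℕ),
  ∃ g : MvPolynomial (Fin i) R, Th q i g = hk q i α

def S_KI : Prop := ∀ (ℓ k i : ℕ) (g : MvPolynomial (Fin i) (RR ℓ k)),
  g ∈ KI (qq ℓ k) i (SS ℓ k) (TT ℓ k) ℓ k → Th (qq ℓ k) i g ∈ PI (qq ℓ k) (i + 1)

/-- the elements `X_λ · Y_μ` of `R[ε]` -/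
noncomputable def XY (ℓ k i : ℕ) (lam mu : Multiset ℕ) : MvPolynomial (Fin i) (RR ℓ k) :=
  (lam.map (fun l => PowerSeries.coeff l (XW i (TT ℓ k)))).prod *
    (mu.map (fun l => PowerSeries.coeff l (XW i (SS ℓ k)))).prod

/-- homogeneity of `Θ_i (X_λ Y_μ)` -/
def S_HOM : Prop := ∀ (ℓ k i : ℕ) (lam mu : Multiset ℕ),
  Th (qq ℓ k) i (XY ℓ k i lam mu) ∈ RD ℓ k (i * i + lam.sum + mu.sum)

/-! ### the spanning lemma -/

/-- abstract spanning lemma (first order linear ODEs with polynomial coefficients) -/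
def S_SP : Prop := ∀ (i : ℕ) (B : Type) [CommRing B] [Algebra ℚ B] (D M X Y : PowerSeries B),
  PowerSeries.coeff 0 D = 1 → PowerSeries.coeff 0 X = 1 → PowerSeries.coeff 0 Y = 1 →
  (∀ c : ℕ, i < c → PowerSeries.coeff c D = 0) →
  (∀ c : ℕ, i ≤ c → PowerSeries.coeff c M = 0) →
  D * PowerSeries.derivative B X = M * X →
  D * PowerSeries.derivative B Y = -(2 * PowerSeries.derivative B D + M) * Y →
  Algebra.adjoin ℚ (Set.range (fun c : ℕ => PowerSeries.coeff c D) ∪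
    Set.range (fun c : ℕ => PowerSeries.coeff c M)) = ⊤ →
  ∀ a b : ℕ,
    (Submodule.span ℚ {x : B | ∃ lam mu : Multiset ℕ, Multiset.card lam = i ∧ Multiset.card mu = i ∧
        (∀ t ∈ lam, t < a) ∧ (∀ t ∈ mu, t < b) ∧
        x = (lam.map (fun l => PowerSeries.coeff l X)).prod *
          (mu.map (fun l => PowerSeries.coeff l Y)).prod}) ⊔
      ((Ideal.span ({x : B | ∃ l : ℕ, a ≤ l ∧ x = PowerSeries.coeff l X} ∪
        {x : B | ∃ l : ℕ, b ≤ l ∧ x = PowerSeries.coeff l Y})).restrictScalars ℚ) = ⊤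

/-- the spanning lemma applied to `R[ε] / K'`. -/
def S_SPB : Prop := ∀ ℓ k i : ℕ, i ≤ k → i ≤ ℓ →
  (Submodule.span ℚ {x : MvPolynomial (Fin i) (RR ℓ k) | ∃ lam mu : Multiset ℕ,
        Multiset.card lam = i ∧ Multiset.card mu = i ∧
        (∀ t ∈ lam, t ≤ k - i) ∧ (∀ t ∈ mu, t ≤ ℓ - i) ∧ x = XY ℓ k i lam mu}) ⊔
    ((KI (qq ℓ k) i (SS ℓ k) (TT ℓ k) ℓ k).restrictScalars ℚ) = ⊤

/-- one step of the filtration. -/
def S_STEP : Prop := ∀ ℓ k i : ℕ, i ≤ k → i ≤ ℓ →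
  ((PI (qq ℓ k) i).restrictScalars ℚ) ≤
    (Submodule.span ℚ {x : RR ℓ k | ∃ lam mu : Multiset ℕ,
        Multiset.card lam = i ∧ Multiset.card mu = i ∧
        (∀ t ∈ lam, t ≤ k - i) ∧ (∀ t ∈ mu, t ≤ ℓ - i) ∧ x = Th (qq ℓ k) i (XY ℓ k i lam mu)}) ⊔
    ((PI (qq ℓ k) (i + 1)).restrictScalars ℚ)

/-! ### dimension counts -/

/-- generating function of multisets of `i` numbers in `{0..a}` -/
noncomputable def Gp (i a : ℕ) : Polynomial ℕ :=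
  ∑ lam ∈ (Finset.range (a + 1)).sym i, (Polynomial.X : Polynomial ℕ) ^ ((lam : Multiset ℕ).sum)

noncomputable def Np (ℓ k m : ℕ) : Polynomial ℕ :=
  ∑ i ∈ Finset.range m, (Polynomial.X : Polynomial ℕ) ^ (i * i) * Gp i (k - i) * Gp i (ℓ - i)

/-- the ideals `PI` are stable under `sig`. -/
def S_STAB : Prop := ∀ (ℓ k m : ℕ) (x : RR ℓ k), x ∈ PI (qq ℓ k) m → sig ℓ k x ∈ PI (qq ℓ k) m

def S_BOUND : Prop := ∀ ℓ k m : ℕ, m ≤ min k ℓ + 1 → ∀ D : ℕ,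
  ∃ U : Submodule ℚ (RR ℓ k), Module.Finite ℚ U ∧ Module.finrank ℚ U ≤ (Np ℓ k m).coeff D ∧
    RD ℓ k D ≤ U ⊔ ((PI (qq ℓ k) m).restrictScalars ℚ)

def S_FIN : Prop := ∀ ℓ k : ℕ, Module.Finite ℚ (RR ℓ k)

/-- annihilator of `PI m` -/
def AnnP (ℓ k m : ℕ) : Submodule ℚ (RR ℓ k) where
  carrier := {x | ∀ z ∈ PI (qq ℓ k) m, x * z = 0}
  add_mem' := by
    intro x y hx hy z hz
    rw [add_mul, hx z hz, hy z hz, add_zero]
  zero_mem' := by intro z _; rw [zero_mul]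
  smul_mem' := by
    intro c x hx z hz
    rw [smul_mul_assoc, hx z hz, smul_zero]

def S_ANN : Prop := ∀ ℓ k m : ℕ, m ≤ min k ℓ + 1 → ∀ D : ℕ,
  Module.finrank ℚ ↥(AnnP ℓ k m ⊓ RD ℓ k D) ≤
    if D ≤ k * ℓ then (Np ℓ k m).coeff (k * ℓ - D) else 0

/-- the subalgebra generated by `q_0..q_{m-1}` -/
noncomputable def Rm (ℓ k m : ℕ) : Submodule ℚ (RR ℓ k) :=
  Subalgebra.toSubmodule (Algebra.adjoin ℚ {x : RR ℓ k | ∃ a : ℕ, a < m ∧ x = qq ℓ k a})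

def S_CHAIN : Prop := ∀ ℓ k m D : ℕ,
  Module.finrank ℚ ↥(Rm ℓ k m ⊓ RD ℓ k (D + (m + 1))) +
      Module.finrank ℚ ↥(Rm ℓ k (m + 1) ⊓ RD ℓ k D) ≤
    Module.finrank ℚ ↥(Rm ℓ k (m + 1) ⊓ RD ℓ k (D + (m + 1))) +
      Module.finrank ℚ ↥(AnnP ℓ k (m + 1) ⊓ RD ℓ k D)

/-! ### comparison with the frozen statement -/

def S_TR1 : Prop := ∀ ℓ k d : ℕ,
  Submodule.map (Ideal.Quotient.mkₐ ℚ (II ℓ k)).toLinearMap
    (MvPolynomial.weightedHomogeneousSubmodule ℚ (ww ℓ k) d) = RD ℓ k d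

def S_TR2 : Prop := ∀ ℓ k m e : ℕ, e ≤ m → ∀ x ∈ RD ℓ k e,
  x ∈ Algebra.adjoin ℚ {x : RR ℓ k | ∃ a : ℕ, a < m ∧ x = qq ℓ k a}

/-! ### q-binomial identities -/

def QB (qb : ℕ → ℕ → Polynomial ℕ) : Prop :=
  ∀ n r : ℕ, qb n r = ∑ S ∈ (Finset.univ : Finset (Fin n)).powersetCard r,
    (Polynomial.X : Polynomial ℕ) ^ ((∑ s ∈ S, (s : ℕ)) - r * (r - 1) / 2)

noncomputable def ep (qb : ℕ → ℕ → Polynomial ℕ) (ℓ k m : ℕ) : Polynomial ℕ :=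
  1 + ∑ i ∈ Finset.Icc 1 m, (Polynomial.X : Polynomial ℕ) ^ i * qb k i *
    ∑ j ∈ Finset.range (ℓ - i + 1),
      (Polynomial.X : Polynomial ℕ) ^ (j * (k - i + 1)) * qb (i + j - 1) j

noncomputable def jp (qb : ℕ → ℕ → Polynomial ℕ) (ℓ k m : ℕ) : Polynomial ℕ :=
  ∑ i ∈ Finset.range m, (Polynomial.X : Polynomial ℕ) ^ ((k - i) * (ℓ - i)) * qb k i * qb ℓ i

/-- basic facts on q-binomials: Pascal rules, symmetry, boundary values -/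
def S_QB0 : Prop := ∀ qb, QB qb →
  (∀ n, qb n 0 = 1) ∧ (∀ n r, n < r → qb n r = 0) ∧ (∀ n, qb n n = 1) ∧
  (∀ n r, qb (n + 1) (r + 1) = qb n r + Polynomial.X ^ (r + 1) * qb n (r + 1)) ∧
  (∀ n r, r ≤ n → qb (n + 1) (r + 1) = Polynomial.X ^ (n - r) * qb n r + qb n (r + 1)) ∧
  (∀ n r, r ≤ n → qb n r = qb n (n - r)) ∧
  (∀ n r d, r ≤ n → d ≤ r * (n - r) → (qb n r).coeff d = (qb n r).coeff (r * (n - r) - d)) ∧
  (∀ n r, (qb n r).natDegree ≤ r * (n - r))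

def S_QB1 : Prop := ∀ qb, QB qb → ∀ i a : ℕ, Gp i a = qb (a + i) i

def S_NUM1 : Prop := ∀ qb, QB qb → ∀ ℓ k m : ℕ, m + 1 ≤ min k ℓ →
  ep qb ℓ k (m + 1) + Polynomial.X ^ (m + 1) * jp qb ℓ k (m + 1)
    = ep qb ℓ k m + Polynomial.X ^ (m + 1) * ep qb ℓ k (m + 1)

def S_NUM2 : Prop := ∀ qb, QB qb → ∀ ℓ k : ℕ,
  ep qb ℓ k (min k ℓ) = jp qb ℓ k (min k ℓ + 1)

def S_NUM3 : Prop := ∀ qb, QB qb → ∀ ℓ k m : ℕ, m ≤ min k ℓ + 1 → ∀ D : ℕ, D ≤ k * ℓ →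
  (Np ℓ k m).coeff (k * ℓ - D) = (jp qb ℓ k m).coeff D

/-! ### the conclusion -/

def S_MAIN : Prop := ∀ qb, QB qb → ∀ ℓ k m : ℕ, m ≤ min k ℓ → ∀ D : ℕ,
  Module.finrank ℚ ↥(Rm ℓ k m ⊓ RD ℓ k D) = (ep qb ℓ k m).coeff D

end Pool.Agent.W181.RT
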